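import Pool.Agent.H90.STK.Stmts

/-!
# Control of sums of independent copies
-/

set_option autoImplicit false

namespace Pool.STK

open Finset Real MeasureTheory
open Pool.Agent.H49.Ent Pool.Agent.H32.Dense

namespace CTS

/-- Data processing for independence. -/
lemma indep_of {Ω S S' T T' : Type} [Fintype Ω] {p : Ω → ℝ} (hp : ∀ ω, 0 ≤ p ω)
    {W : Ω → S} {V : Ω → T} {Y₁ : Ω → S'} {Y₂ : Ω → T'}
    (h : H p W + H p V ≤ H p (fun ω => (W ω, V ω))) (h1 : Det p W Y₁) (h2 : Det p V Y₂) :
    H p Y₁ + H p Y₂ ≤ H p (fun ω => (Y₁ ω, Y₂ ω)) := by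
  have a1 := submod hp (X := V) (Y := fun ω => (Y₁ ω, Y₂ ω)) (Z := Y₂)
    (W := fun ω => (V ω, Y₁ ω)) h2 (fun ω ω' _ _ e => by
      simp only [Prod.mk.injEq] at e; exact e.2) (fun ω ω' _ _ e => by
      simp only [Prod.mk.injEq] at e ⊢; tauto)
  have a2 := submod hp (X := fun ω => (V ω, Y₁ ω)) (Y := W) (Z := Y₁)
    (W := fun ω => (W ω, V ω)) (fun ω ω' _ _ e => by
      simp only [Prod.mk.injEq] at e; exact e.2) h1 (fun ω ω' _ _ e => by
      simp only [Prod.mk.injEq] at e ⊢; tauto)
  linarith

section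

variable {Ω' ι : Type} [Fintype Ω'] [Fintype ι] [DecidableEq ι] {q : Ω' → ℝ}

/-- The coordinates in a finite set. -/
def co (s : Finset ι) (w : ι → Ω') (i : ι) : Option Ω' := if i ∈ s then some (w i) else none

lemma H_co (hPRD : PRDStmt) (hq : IsLaw q) {s : Finset ι} {j : ι} (hj : j ∉ s) :
    H (prd q : (ι → Ω') → ℝ) (co s) + H (prd q : (ι → Ω') → ℝ) (co {j}) ≤
      H (prd q : (ι → Ω') → ℝ) (fun w => (co s w, co {j} w)) := by
  classical
  obtain ⟨hl, -, hH⟩ := hPRD Ω' ι (Option Ω') q hq
  have e0 : ∀ t : Finset ι, H (prd q : (ι → Ω') → ℝ) (co t) =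
      ∑ i, H q (fun ω => if i ∈ t then some ω else none) := by
    intro t
    exact hH fun i ω => if i ∈ t then some ω else none
  have e1 : H (prd q : (ι → Ω') → ℝ) (fun w => (co s w, co {j} w)) =
      H (prd q : (ι → Ω') → ℝ) (co (insert j s)) := by
    refine H_congr hl.nonneg ?_ ?_
    · intro w w' _ _ e
      simp only [Prod.mk.injEq]
      constructor
      · funext i
        have := congrFun e i
        unfold co at this ⊢
        by_cases hi : i ∈ s
        · simp only [Finset.mem_insert, hi, or_true, if_true] at this ⊢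
          exact this
        · simp only [hi, if_false]
      · funext i
        have := congrFun e i
        unfold co at this ⊢
        by_cases hi : i ∈ ({j} : Finset ι)
        · rw [if_pos hi, if_pos hi]
          rw [Finset.mem_singleton] at hi
          rw [if_pos (by rw [hi]; exact Finset.mem_insert_self j s),
            if_pos (by rw [hi]; exact Finset.mem_insert_self j s)] at this
          exact this
        · rw [if_neg hi, if_neg hi]
    · intro w w' _ _ e
      simp only [Prod.mk.injEq] at e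
      funext i
      unfold co
      by_cases hi : i ∈ insert j s
      · rw [if_pos hi, if_pos hi]
        rcases Finset.mem_insert.mp hi with h | h
        · have := congrFun e.2 i
          unfold co at this
          rw [if_pos (Finset.mem_singleton.mpr h), if_pos (Finset.mem_singleton.mpr h)] at this
          exact this
        · have := congrFun e.1 i
          unfold co at this
          rw [if_pos h, if_pos h] at this
          exact this
      · rw [if_neg hi, if_neg hi]
  have hn : H q (fun _ : Ω' => (none : Option Ω')) = 0 := H_const hq.sum_one _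
  rw [e1, e0, e0, e0, ← Finset.sum_add_distrib]
  refine le_of_eq (Finset.sum_congr rfl fun i _ => ?_)
  by_cases hi : i = j
  · subst hi
    simp only [hj, if_false, Finset.mem_singleton, if_true, Finset.mem_insert, true_or, hn,
      zero_add]
  · simp only [Finset.mem_singleton, hi, if_false, Finset.mem_insert, false_or, hn, add_zero]

lemma marg_pair {Ω : Type} [Fintype Ω] {p : Ω → ℝ}
    (hm : ∀ i : ι, Marg (prd q : (ι → Ω') → ℝ) q (fun w => w i)) (j : ι) :
    Marg (pr2 p (prd q : (ι → Ω') → ℝ)) (pr2 p q) (fun w => (w.1, w.2 j)) := by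
  classical
  rintro ⟨a, b⟩
  rw [Fintype.sum_prod_type, Finset.sum_eq_single a]
  · have h1 := hm j b
    unfold pr2
    simp only
    rw [← h1, Finset.mul_sum]
    refine Finset.sum_congr rfl fun v _ => ?_
    by_cases hv : v j = b
    · rw [if_pos (by rw [hv]), if_pos hv]
    · rw [if_neg (fun h => hv (Prod.ext_iff.mp h).2), if_neg hv, mul_zero]
  · intro a' _ ha'
    refine Finset.sum_eq_zero fun v _ => ?_
    rw [if_neg (fun h => ha' (Prod.ext_iff.mp h).1)]
  · intro h
    exact absurd (Finset.mem_univ _) h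

end

end CTS

theorem cts_thm (hKV : KVStmt) (hPR2 : PR2Stmt) (hPRD : PRDStmt) : CTSStmt := by
  intro Ω Ω' ι G _ _ _ _ _ p q x B C γ hp hq hC c
  obtain ⟨hl, hm, -⟩ := hPRD Ω' ι Unit q hq
  obtain ⟨h2, h2a, h2b, -⟩ := hPR2 Ω (ι → Ω') Unit Unit p (prd q) hp hl
  have key : ∀ s : Finset ι, H (pr2 p (prd q : (ι → Ω') → ℝ))
      (fun w => x w.1 + ∑ i ∈ s, (c * γ i) • B (w.2 i)) ≤
        H p x + ∑ i ∈ s, |(c : ℝ) * γ i| * C := by
    intro s
    induction s using Finset.induction_on with
    | empty =>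
      simp only [Finset.sum_empty, add_zero]
      exact (h2a.H x).le
    | insert j s hj ih =>
      obtain ⟨Y₁, hY₁⟩ : ∃ Y₁ : (ι → Ω') → G, Y₁ = fun v => ∑ i ∈ s, (c * γ i) • B (v i) :=
        ⟨_, rfl⟩
      obtain ⟨Y₂, hY₂⟩ : ∃ Y₂ : (ι → Ω') → G, Y₂ = fun v => (c * γ j) • B (v j) := ⟨_, rfl⟩
      have i1 : H (prd q : (ι → Ω') → ℝ) Y₁ + H (prd q : (ι → Ω') → ℝ) Y₂ ≤
          H (prd q : (ι → Ω') → ℝ) (fun v => (Y₁ v, Y₂ v)) := by
        refine CTS.indep_of hl.nonneg (CTS.H_co hPRD hq hj) ?_ ?_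
        · intro w w' _ _ e
          rw [hY₁]
          refine Finset.sum_congr rfl fun i hi => ?_
          have := congrFun e i
          unfold CTS.co at this
          rw [if_pos hi, if_pos hi] at this
          rw [Option.some.inj this]
        · intro w w' _ _ e
          rw [hY₂]
          have := congrFun e j
          unfold CTS.co at this
          rw [if_pos (Finset.mem_singleton_self j), if_pos (Finset.mem_singleton_self j)] at this
          simp only
          rw [Option.some.inj this]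
      have i2 : H (pr2 p (prd q : (ι → Ω') → ℝ)) (fun w => (x w.1, (Y₁ w.2, Y₂ w.2))) =
          H p x + H (prd q : (ι → Ω') → ℝ) (fun v => (Y₁ v, Y₂ v)) :=
        (hPR2 Ω (ι → Ω') G (G × G) p (prd q) hp hl).2.2.2 x (fun v => (Y₁ v, Y₂ v))
      have i3 : H (pr2 p (prd q : (ι → Ω') → ℝ)) (fun w => x w.1) = H p x := h2a.H x
      have i4 : H (pr2 p (prd q : (ι → Ω') → ℝ)) (fun w => Y₁ w.2) =
        H (prd q : (ι → Ω') → ℝ) Y₁ := h2b.H Y₁
      have i5 : H (pr2 p (prd q : (ι → Ω') → ℝ)) (fun w => Y₂ w.2) =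
        H (prd q : (ι → Ω') → ℝ) Y₂ := h2b.H Y₂
      have i6 := hKV (Ω × (ι → Ω')) G (pr2 p (prd q)) h2 (fun w => x w.1) (fun w => Y₁ w.2)
        (fun w => Y₂ w.2) (by rw [i2, i3, i4, i5]; linarith)
      have i7 : H (pr2 p (prd q : (ι → Ω') → ℝ)) (fun w => x w.1 + Y₂ w.2) ≤
          H p x + |(c : ℝ) * γ j| * C := by
        have j1 : H (pr2 p (prd q : (ι → Ω') → ℝ)) (fun w => x w.1 + Y₂ w.2) =
            H (pr2 p q) (fun w => x w.1 + (c * γ j) • B w.2) := by
          rw [hY₂]
          exact (CTS.marg_pair hm j).H (fun w : Ω × Ω' => x w.1 + (c * γ j) • B w.2)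
        have j2 := hC (c * γ j)
        rw [j1]
        push_cast at j2
        exact j2
      have i8 : (fun w : Ω × (ι → Ω') => x w.1 + ∑ i ∈ insert j s, (c * γ i) • B (w.2 i)) =
          fun w => x w.1 + Y₁ w.2 + Y₂ w.2 := by
        funext w
        rw [Finset.sum_insert hj, hY₁, hY₂]
        simp only
        abel
      have i9 : H (pr2 p (prd q : (ι → Ω') → ℝ)) (fun w => x w.1 + Y₁ w.2) ≤
          H p x + ∑ i ∈ s, |(c : ℝ) * γ i| * C := by
        rw [hY₁]
        exact ih
      rw [i8, Finset.sum_insert hj]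
      linarith
  have h3 := key Finset.univ
  have h4 : (fun w : Ω × (ι → Ω') => x w.1 + c • ∑ i, γ i • B (w.2 i)) =
      fun w => x w.1 + ∑ i, (c * γ i) • B (w.2 i) := by
    funext w
    rw [Finset.smul_sum]
    congr 1
    exact Finset.sum_congr rfl fun i _ => by rw [mul_smul]
  have h5 : ∑ i, |(c : ℝ) * γ i| * C = |(c : ℝ)| * ((∑ i, |(γ i : ℝ)|) * C) := by
    rw [Finset.sum_mul, Finset.mul_sum]
    exact Finset.sum_congr rfl fun i _ => by rw [abs_mul]; ring
  rw [h4, ← h5]
  exact h3

end Pool.STK
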