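import Pool.Agent.H90.STK.Stmts

/-!
# Submodularity for sums of independent variables
-/

set_option autoImplicit false

namespace Pool.STK

open Finset Real MeasureTheory
open Pool.Agent.H49.Ent Pool.Agent.H32.Dense

theorem kv_thm : KVStmt := by
  intro Ω G _ _ p hp X Y₁ Y₂ h
  have a1 := submod hp.nonneg (X := fun ω => (X ω + Y₁ ω, Y₂ ω))
    (Y := fun ω => (Y₁ ω, X ω + Y₂ ω)) (Z := fun ω => X ω + Y₁ ω + Y₂ ω)
    (W := fun ω => (X ω, Y₁ ω, Y₂ ω))
    (fun ω ω' _ _ e => by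
      simp only [Prod.mk.injEq] at e
      simp only
      rw [e.1, e.2])
    (fun ω ω' _ _ e => by
      simp only [Prod.mk.injEq] at e
      simp only
      calc X ω + Y₁ ω + Y₂ ω = Y₁ ω + (X ω + Y₂ ω) := by abel
        _ = Y₁ ω' + (X ω' + Y₂ ω') := by rw [e.1, e.2]
        _ = X ω' + Y₁ ω' + Y₂ ω' := by abel)
    (fun ω ω' _ _ e => by
      simp only [Prod.mk.injEq] at e ⊢
      obtain ⟨⟨e1, e2⟩, e3, e4⟩ := e
      refine ⟨?_, e3, e2⟩
      rw [e3] at e1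
      exact add_right_cancel e1)
  have a2 := subadd hp.nonneg hp.sum_one (X := fun ω => X ω + Y₁ ω) (Y := Y₂)
    (W := fun ω => (X ω + Y₁ ω, Y₂ ω)) (fun _ _ _ _ e => e)
  have a3 := subadd hp.nonneg hp.sum_one (X := Y₁) (Y := fun ω => X ω + Y₂ ω)
    (W := fun ω => (Y₁ ω, X ω + Y₂ ω)) (fun _ _ _ _ e => e)
  linarith

end Pool.STK
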