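import Pool.Agent.H90.STK.Stmts

/-!
# Extremality against data processing in one window of times
-/

set_option autoImplicit false

namespace Pool.STK

open Finset Real MeasureTheory
open Pool.Agent.H49.Ent Pool.Agent.H32.Dense

namespace SDP

/-- Exchange formula for conditional entropies. -/
lemma exch {Ω S T U : Type} [Fintype Ω] {p : Ω → ℝ} (hp : ∀ ω, 0 ≤ p ω) (D : Ω → S) (V : Ω → T)
    (Z : Ω → U) :
    CH p D (fun ω => (Z ω, V ω)) = CH p D Z + CH p V (fun ω => (D ω, Z ω)) - CH p V Z := by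
  have h1 := CH_chain hp D V Z
  have h2 := CH_chain hp V D Z
  have h3 : CH p (fun ω => (D ω, V ω)) Z = CH p (fun ω => (V ω, D ω)) Z :=
    CH_congr hp (fun ω ω' _ _ h => by simp only [Prod.mk.injEq] at h ⊢; tauto)
      (fun ω ω' _ _ h => by simp only [Prod.mk.injEq] at h ⊢; tauto)
      (fun _ _ _ _ h => h) (fun _ _ _ _ h => h)
  have h4 : CH p D (fun ω => (Z ω, V ω)) = CH p D (fun ω => (V ω, Z ω)) :=
    CH_congr hp (fun ω ω' _ _ h => by simp only [Prod.mk.injEq] at h; tauto)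
      (fun ω ω' _ _ h => by simp only [Prod.mk.injEq] at h; tauto)
      (fun ω ω' _ _ h => by simp only [Prod.mk.injEq] at h ⊢; tauto)
      (fun ω ω' _ _ h => by simp only [Prod.mk.injEq] at h ⊢; tauto)
  rw [h4]
  linarith

end SDP

theorem sdp_thm (hQ22 : Q22Stmt) (hWIN : WINStmt) (hRFN : RFNStmt) (hMUL : MULStmt)
    (hINT : INTStmt) : SDPStmt := by
  intro m a R η₂ ε ε₂ N k Ω ζ _ p u d Z hp hd ha _ hG hS hε w hw
  have h2k : (0 : ℝ) < 2 ^ k := by positivity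
  have h1k : (1 : ℝ) ≤ 2 ^ k := one_le_pow₀ (by norm_num)
  have hinv : ((2 : ℝ) ^ k)⁻¹ ≤ 1 := inv_le_one_of_one_le₀ h1k
  have hinv0 : (0 : ℝ) < ((2 : ℝ) ^ k)⁻¹ := by positivity
  obtain ⟨t₀, ht₀⟩ : ∃ t₀ : ℝ, t₀ = (w : ℝ) / 2 ^ k := ⟨_, rfl⟩
  rw [← ht₀]
  have ht0 : 0 ≤ t₀ := by rw [ht₀]; positivity
  have ht0' : t₀ + (2 ^ k)⁻¹ ≤ 1 := by
    have hw1 : (w : ℝ) + 1 ≤ 2 ^ k := by exact_mod_cast hw
    have : t₀ + ((2 : ℝ) ^ k)⁻¹ = ((w : ℝ) + 1) / 2 ^ k := by rw [ht₀]; field_simp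
    rw [this, div_le_one h2k]
    exact hw1
  have ht01 : t₀ ≤ 1 := by linarith
  -- the law
  obtain ⟨hPlaw, hPm, -⟩ := hMUL Ω ((((Fin m → ℤ) × (Fin m → ℤ))) × ζ) N p
    (fun r : Fin N => bb u d Z k r) hp
  have hPlaw' : IsLaw (PP p u d Z k N) := hPlaw
  have hPm' : Marg (PP p u d Z k N) p (fun w => w.1) := hPm
  have hPn := hPlaw'.nonneg
  obtain ⟨P, hP⟩ : ∃ P, P = PP p u d Z k N := ⟨_, rfl⟩
  obtain ⟨V, hV⟩ : ∃ V, V = zv u d t₀ k N := ⟨_, rfl⟩
  have hQ := fun t ht => hQ22 m Ω ζ p u d Z hp k N t₀ t ht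
  have hIw : Iw p u d Z k N t₀ = CH P V (fun w => Z w.1) - CH P V (fun w => w.1) := by
    rw [hP, hV]; rfl
  rw [← hP] at hPlaw' hPm' hPn
  rw [← hP, ← hV] at hQ
  obtain ⟨J, hJ⟩ : ∃ J : ℕ, J = N * k := ⟨_, rfl⟩
  rw [← hJ] at hG hS hQ ⊢
  have hJr : ((N : ℝ) * k) = (J : ℝ) := by rw [hJ]; push_cast; ring
  rw [hJr] at hε ⊢
  obtain ⟨dd, hdd⟩ : ∃ dd : Ω → Fin m → ℝ, dd = fun ω i => (2 ^ k)⁻¹ * d ω i := ⟨_, rfl⟩
  obtain ⟨w1, w2, w3⟩ := hWIN m Ω ζ p u d Z hp k t₀ ht0 ht01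
  rw [← hdd] at w1 w2 w3
  -- the family seen in the window
  have hGd := hG (Ω × (Fin N → Ω)) (ζ × (Fin N → Fin m → ℤ)) P (fun w => pt u d t₀ w.1)
    (fun w => dd w.1) (fun w => (Z w.1, V w)) hPlaw'
    (by
      intro w i
      rw [hdd]
      simp only
      rw [abs_mul, abs_of_pos hinv0]
      calc (2 ^ k)⁻¹ * |d w.1 i| ≤ 1 * 1 :=
            mul_le_mul hinv (hd _ _) (abs_nonneg _) (by norm_num)
        _ = 1 := one_mul 1)
    (by
      intro j hj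
      have e1 : CH P (Fl (fun w : Ω × (Fin N → Ω) => pt u d t₀ w.1) j)
          (fun w => (Fl (fun w : Ω × (Fin N → Ω) => dd w.1) j w, (Z w.1, V w))) ≤
          CH P (Fl (fun w : Ω × (Fin N → Ω) => pt u d t₀ w.1) j)
          (fun w => (Fl (fun w : Ω × (Fin N → Ω) => dd w.1) j w, Z w.1)) :=
        CH_mono_cond hPn (fun ω ω' _ _ h => by simp only [Prod.mk.injEq] at h ⊢; tauto)
      have e2 : CH P (Fl (fun w : Ω × (Fin N → Ω) => pt u d t₀ w.1) j)
          (fun w => (Fl (fun w : Ω × (Fin N → Ω) => dd w.1) j w, Z w.1)) =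
          CH p (Fl (pt u d t₀) j) (fun ω => (Fl dd j ω, Z ω)) :=
        hPm'.CH (Fl (pt u d t₀) j) (fun ω => (Fl dd j ω, Z ω))
      have e3 := w3 j
      have e4 := hS j hj
      rw [e2] at e1
      linarith)
  -- lower bound for the directions
  have hD : CH p (Fl d J) Z - Iw p u d Z k N t₀ - m * (k * Real.log 2) - cc m ≤
      CH P (Fl (fun w : Ω × (Fin N → Ω) => dd w.1) J) (fun w => (Z w.1, V w)) := by
    have r1 := hRFN m (Ω × (Fin N → Ω)) (ζ × (Fin N → Fin m → ℤ)) P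
      (fun w => dd w.1) (fun w => (Z w.1, V w)) hPlaw' k J
    have r2 : Fl (fun w : Ω × (Fin N → Ω) => dd w.1) (J + k) = fun w => Fl d J w.1 := by
      funext w
      have := congrFun (w2 J) w.1
      rw [Nat.add_comm k J] at this
      exact this
    rw [r2] at r1
    have r3 := SDP.exch hPn (fun w : Ω × (Fin N → Ω) => Fl d J w.1) V (fun w => Z w.1)
    have r4 : CH P (fun w : Ω × (Fin N → Ω) => Fl d J w.1) (fun w => Z w.1) = CH p (Fl d J) Z :=
      hPm'.CH (Fl d J) Z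
    have r5 : CH P V (fun w => w.1) ≤ CH P V (fun w => (Fl d J w.1, Z w.1)) :=
      CH_mono_cond hPn (fun ω ω' _ _ h => by rw [h])
    rw [r3, r4] at r1
    rw [hIw]
    linarith
  -- upper bound for the positions
  have hX : ∀ s ∈ Set.Icc (0 : ℝ) 1,
      CH P (Xp (fun w : Ω × (Fin N → Ω) => pt u d t₀ w.1) (fun w => dd w.1) s J)
        (fun w => (Z w.1, V w)) ≤
      (CH p (Xp u d (t₀ + s * (2 ^ k)⁻¹) J) Z + qq p u d Z k N (t₀ + s * (2 ^ k)⁻¹)) -
        Iw p u d Z k N t₀ := by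
    intro s hs
    have hin : InW k t₀ (t₀ + s * (2 ^ k)⁻¹) := by
      have h1 : 0 ≤ s * ((2 : ℝ) ^ k)⁻¹ := mul_nonneg hs.1 hinv0.le
      have h2 : s * ((2 : ℝ) ^ k)⁻¹ ≤ (2 ^ k)⁻¹ := by nlinarith [hs.2]
      exact ⟨ht0, by linarith, by linarith, by linarith⟩
    have r2 : Xp (fun w : Ω × (Fin N → Ω) => pt u d t₀ w.1) (fun w => dd w.1) s J =
        fun w => Xp u d (t₀ + s * (2 ^ k)⁻¹) J w.1 := by
      funext w
      exact congrFun (w1 s J) w.1
    rw [r2]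
    have r3 := SDP.exch hPn (fun w : Ω × (Fin N → Ω) => Xp u d (t₀ + s * (2 ^ k)⁻¹) J w.1) V
      (fun w => Z w.1)
    have r4 : CH P (fun w : Ω × (Fin N → Ω) => Xp u d (t₀ + s * (2 ^ k)⁻¹) J w.1)
        (fun w => Z w.1) = CH p (Xp u d (t₀ + s * (2 ^ k)⁻¹) J) Z :=
      hPm'.CH (Xp u d (t₀ + s * (2 ^ k)⁻¹) J) Z
    have r5 := hQ _ hin
    rw [r3, r4, hIw]
    linarith
  -- integrability
  have hXi : IntervalIntegrable (fun s => CH P (Xp (fun w : Ω × (Fin N → Ω) => pt u d t₀ w.1)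
      (fun w => dd w.1) s J) (fun w => (Z w.1, V w))) volume 0 1 :=
    (hINT m (Ω × (Fin N → Ω)) (ζ × (Fin N → Fin m → ℤ)) P (fun w => pt u d t₀ w.1)
      (fun w => dd w.1) hPlaw').1 (fun w => (Z w.1, V w)) J 0 1
  have hYi : IntervalIntegrable (fun s : ℝ => CH p (Xp u d (t₀ + s * (2 ^ k)⁻¹) J) Z)
      volume 0 1 := by
    have h1 := (hINT m Ω ζ p (pt u d t₀) dd hp).1 Z J 0 1
    simp only [w1] at h1
    exact h1
  have hqi : IntervalIntegrable (fun s : ℝ => qq p u d Z k N (t₀ + s * (2 ^ k)⁻¹))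
      volume 0 1 := by
    have h1 : ∀ r ∈ Finset.range N, IntervalIntegrable
        (fun s : ℝ => II p u d Z k r (t₀ + s * (2 ^ k)⁻¹) + 3 * cc m) volume 0 1 := by
      intro r _
      have a1 := (hINT m Ω ζ p (pt u d t₀) dd hp).2 Z ((r + 1) * k) (r * k) 0 1
      have a2 := (hINT m Ω (((Fin m → ℤ) × (Fin m → ℤ)) × ζ) p (pt u d t₀) dd hp).1
        (bb u d Z k r) ((r + 1) * k) 0 1
      simp only [w1] at a1 a2
      exact (a1.sub a2).add intervalIntegrable_const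
    have h2 := IntervalIntegrable.sum (Finset.range N) h1
    have h3 : (fun s : ℝ => qq p u d Z k N (t₀ + s * (2 ^ k)⁻¹)) =
        ∑ r ∈ Finset.range N, (fun s : ℝ => II p u d Z k r (t₀ + s * (2 ^ k)⁻¹) + 3 * cc m) := by
      funext s
      rw [Finset.sum_apply]
      rfl
    rw [h3]
    exact h2
  have hint := intervalIntegral.integral_mono_on (by norm_num : (0 : ℝ) ≤ 1) hXi
    ((hYi.add hqi).sub intervalIntegrable_const) hX
  rw [intervalIntegral.integral_sub (hYi.add hqi) intervalIntegrable_const,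
    intervalIntegral.integral_const] at hint
  simp only [sub_zero, one_smul] at hint
  have hXav : Xav P (fun w : Ω × (Fin N → Ω) => pt u d t₀ w.1) (fun w => dd w.1)
      (fun w => (Z w.1, V w)) J = ∫ s in (0 : ℝ)..1,
      CH P (Xp (fun w : Ω × (Fin N → Ω) => pt u d t₀ w.1) (fun w => dd w.1) s J)
        (fun w => (Z w.1, V w)) := rfl
  rw [hXav] at hGd
  have hfin := mul_le_mul_of_nonneg_left hint (by linarith : (0 : ℝ) ≤ a)
  rw [mul_sub] at hfin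
  linarith

end Pool.STK
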