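import Pool.Agent.H90.STK.Stmts

/-!
# The informations are almost nonnegative
-/

set_option autoImplicit false

namespace Pool.STK

open Finset Real MeasureTheory
open Pool.Agent.H49.Ent Pool.Agent.H32.Dense

theorem spc_thm : SPCStmt := by
  intro m Ω ζ _ p u d Z hp k r t ht0 ht1
  have h1 := CH_le_add hp.nonneg (Xp u d t ((r + 1) * k)) (Xp u d t (r * k)) (bb u d Z k r)
  have h2 : CH p (Xp u d t ((r + 1) * k)) (fun ω => (Xp u d t (r * k) ω, bb u d Z k r ω)) ≤
      CH p (Xp u d t ((r + 1) * k)) (fun ω => (Xp u d t (r * k) ω, Z ω)) :=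
    CH_mono_cond hp.nonneg (fun ω ω' _ _ h => by
      simp only [bb, Prod.mk.injEq] at h ⊢
      exact ⟨h.1, h.2.2⟩)
  have h3 := CH_le_vec hp.nonneg hp.sum_one (Xp u d t (r * k)) (bb u d Z k r) (fun _ => 3)
    (by
      intro ω ω' _ _ h i
      simp only [bb, Ln, Prod.mk.injEq] at h
      have a1 := congrFun h.1.1 i
      have a2 := congrFun h.1.2 i
      unfold Fl fl rd at a1 a2
      unfold Xp fl rd pt
      simp only
      obtain ⟨A, hA⟩ : ∃ A : ℝ, A = 2 ^ (r * k) := ⟨_, rfl⟩
      rw [← hA] at a1 a2 ⊢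
      have b1 := Int.floor_le (A * u ω i)
      have b2 := Int.lt_floor_add_one (A * u ω i)
      have b3 := Int.floor_le (A * u ω' i)
      have b4 := Int.lt_floor_add_one (A * u ω' i)
      have b5 := Int.floor_le (A * d ω i)
      have b6 := Int.lt_floor_add_one (A * d ω i)
      have b7 := Int.floor_le (A * d ω' i)
      have b8 := Int.lt_floor_add_one (A * d ω' i)
      rw [a1] at b1 b2
      rw [a2] at b5 b6
      have c1 := Int.floor_le (A * (u ω i + t * d ω i))
      have c2 := Int.lt_floor_add_one (A * (u ω i + t * d ω i))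
      have c3 := Int.floor_le (A * (u ω' i + t * d ω' i))
      have c4 := Int.lt_floor_add_one (A * (u ω' i + t * d ω' i))
      have d1 : |A * d ω i - A * d ω' i| ≤ 1 := by rw [abs_le]; constructor <;> linarith
      have d2 : |t * (A * d ω i - A * d ω' i)| ≤ 1 := by
        rw [abs_mul, abs_of_nonneg ht0]
        calc t * |A * d ω i - A * d ω' i| ≤ 1 * 1 :=
              mul_le_mul ht1 d1 (abs_nonneg _) (by norm_num)
          _ = 1 := one_mul 1
      rw [abs_le] at d2
      have e1 : A * (u ω i + t * d ω i) - A * (u ω' i + t * d ω' i) =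
        (A * u ω i - A * u ω' i) + t * (A * d ω i - A * d ω' i) := by ring
      push_cast
      rw [abs_le]
      constructor <;> linarith [d2.1, d2.2])
  rw [Ex_const hp.sum_one] at h3
  have h4 : (m : ℝ) * Real.log (2 * 3 + 1) ≤ cc m := by
    unfold cc
    exact mul_le_mul_of_nonneg_left (Real.log_le_log (by norm_num) (by norm_num))
      (Nat.cast_nonneg m)
  unfold II
  linarith

end Pool.STK
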