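import Pool.Agent.H90.STK.Stmts

/-!
# The total doubling
-/

set_option autoImplicit false

namespace Pool.STK

open Finset Real MeasureTheory
open Pool.Agent.H49.Ent Pool.Agent.H32.Dense

namespace THS

lemma xp_shift {Ω : Type} {m : ℕ} (u d : Ω → Fin m → ℝ) (t₀ c s : ℝ) (j : ℕ) :
    Xp (pt u d t₀) (fun ω i => c * d ω i) s j = Xp u d (t₀ + s * c) j := by
  funext ω
  unfold Xp
  congr 1
  funext i
  unfold pt
  ring

variable {Ω ζ : Type} [Fintype Ω] {m : ℕ} {p : Ω → ℝ}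

lemma law_dbl {β : Type} (hp : IsLaw p) (b : Ω → β) : IsLaw (dbl p b) :=
  ⟨dbl_nonneg hp.nonneg, by rw [(dbl_fst hp.nonneg).sum, hp.sum_one]⟩

lemma int_II (hINT : INTStmt) (hp : IsLaw p) (u d : Ω → Fin m → ℝ) (Z : Ω → ζ) (k r : ℕ)
    (t₀ c a b : ℝ) : IntervalIntegrable (fun s => II p u d Z k r (t₀ + s * c)) volume a b := by
  have a1 := (hINT m Ω ζ p (pt u d t₀) (fun ω i => c * d ω i) hp).2 Z ((r + 1) * k) (r * k) a b
  have a2 := (hINT m Ω (((Fin m → ℤ) × (Fin m → ℤ)) × ζ) p (pt u d t₀)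
    (fun ω i => c * d ω i) hp).1 (bb u d Z k r) ((r + 1) * k) a b
  simp only [xp_shift] at a1 a2
  exact a1.sub a2

lemma int_qq (hINT : INTStmt) (hp : IsLaw p) (u d : Ω → Fin m → ℝ) (Z : Ω → ζ) (k N : ℕ)
    (t₀ c a b : ℝ) : IntervalIntegrable (fun s => qq p u d Z k N (t₀ + s * c)) volume a b := by
  have h1 : ∀ r ∈ Finset.range N, IntervalIntegrable
      (fun s : ℝ => II p u d Z k r (t₀ + s * c) + 3 * cc m) volume a b := fun r _ =>
    (int_II hINT hp u d Z k r t₀ c a b).add intervalIntegrable_const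
  have h2 := IntervalIntegrable.sum (Finset.range N) h1
  have h3 : (fun s : ℝ => qq p u d Z k N (t₀ + s * c)) =
      ∑ r ∈ Finset.range N, (fun s : ℝ => II p u d Z k r (t₀ + s * c) + 3 * cc m) := by
    funext s
    rw [Finset.sum_apply]
    rfl
  rw [h3]
  exact h2

lemma int_th (hINT : INTStmt) (hIN2 : IN2Stmt) (hp : IsLaw p) (u d : Ω → Fin m → ℝ) (Z : Ω → ζ)
    (k r : ℕ) (t₀ c a b : ℝ) :
    IntervalIntegrable (fun s => th p u d Z k r (t₀ + s * c)) volume a b := by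
  have a1 := hIN2 m Ω (Ω × Ω) (((Fin m → ℤ) × (Fin m → ℤ)) × ζ) (dbl p (bb u d Z k r))
    (fun w => w.2) (fun w => w.1) (pt u d t₀) (fun ω i => c * d ω i) (law_dbl hp _)
    (fun w => bb u d Z k r w.1) ((r + 1) * k) a b
  have a2 := (hINT m Ω (((Fin m → ℤ) × (Fin m → ℤ)) × ζ) p (pt u d t₀)
    (fun ω i => c * d ω i) hp).1 (bb u d Z k r) ((r + 1) * k) a b
  simp only [xp_shift] at a1 a2
  exact a1.sub a2

lemma int_ths (hINT : INTStmt) (hIN2 : IN2Stmt) (hp : IsLaw p) (u d : Ω → Fin m → ℝ) (Z : Ω → ζ)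
    (k N : ℕ) (t₀ c a b : ℝ) :
    IntervalIntegrable (fun s => ∑ r ∈ Finset.range N, th p u d Z k r (t₀ + s * c))
      volume a b := by
  have h2 := IntervalIntegrable.sum (Finset.range N)
    (fun r _ => int_th hINT hIN2 hp u d Z k r t₀ c a b)
  have h3 : (fun s : ℝ => ∑ r ∈ Finset.range N, th p u d Z k r (t₀ + s * c)) =
      ∑ r ∈ Finset.range N, (fun s : ℝ => th p u d Z k r (t₀ + s * c)) := by
    funext s
    rw [Finset.sum_apply]
  rw [h3]
  exact h2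

end THS

theorem ths_thm (hD43 : D43Stmt) (hSUT : SUTStmt) (hW5 : W5Stmt) (hINT : INTStmt)
    (hIN2 : IN2Stmt) : THSStmt := by
  intro m N k Ω ζ _ p u d Z hp
  have h2k : (0 : ℝ) < 2 ^ k := by positivity
  have hinv0 : (0 : ℝ) < ((2 : ℝ) ^ k)⁻¹ := by positivity
  have e0 : ∀ f : ℝ → ℝ, (fun s => f (0 + s * 1)) = f := by
    intro f
    funext s
    rw [zero_add, mul_one]
  have i1 : ∀ r : ℕ, IntervalIntegrable (fun s => th p u d Z k r s) volume 0 1 := by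
    intro r
    have := THS.int_th hINT hIN2 hp u d Z k r 0 1 0 1
    rw [e0 (fun s => th p u d Z k r s)] at this
    exact this
  have i2 : IntervalIntegrable (fun s => ∑ r ∈ Finset.range N, th p u d Z k r s)
      volume 0 1 := by
    have := THS.int_ths hINT hIN2 hp u d Z k N 0 1 0 1
    rw [e0 (fun s => ∑ r ∈ Finset.range N, th p u d Z k r s)] at this
    exact this
  have i3 : IntervalIntegrable (fun s => qq p u d Z k N s) volume 0 1 := by
    have := THS.int_qq hINT hp u d Z k N 0 1 0 1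
    rw [e0 (fun s => qq p u d Z k N s)] at this
    exact this
  have s1 : ∑ r ∈ Finset.range N, ∫ t in (0 : ℝ)..1, th p u d Z k r t =
      ∫ t in (0 : ℝ)..1, ∑ r ∈ Finset.range N, th p u d Z k r t :=
    (intervalIntegral.integral_finsetSum (fun r _ => i1 r)).symm
  rw [s1, hW5 _ k i2, hW5 _ k i3]
  have key : ∀ w ∈ Finset.range (2 ^ k),
      (2 ^ k)⁻¹ * ∫ s in (0 : ℝ)..1,
        ∑ r ∈ Finset.range N, th p u d Z k r ((w : ℝ) / 2 ^ k + s * (2 ^ k)⁻¹) ≤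
      (2 ^ k)⁻¹ * Iw p u d Z k N ((w : ℝ) / 2 ^ k) +
      (2 ^ k)⁻¹ * (∫ s in (0 : ℝ)..1, qq p u d Z k N ((w : ℝ) / 2 ^ k + s * (2 ^ k)⁻¹)) +
      (2 ^ k)⁻¹ * (N * cc m) := by
    intro w hw
    rw [Finset.mem_range] at hw
    obtain ⟨t₀, ht₀⟩ : ∃ t₀ : ℝ, t₀ = (w : ℝ) / 2 ^ k := ⟨_, rfl⟩
    rw [← ht₀]
    have ht0 : 0 ≤ t₀ := by rw [ht₀]; positivity
    have ht0' : t₀ + (2 ^ k)⁻¹ ≤ 1 := by
      have hw1 : (w : ℝ) + 1 ≤ 2 ^ k := by exact_mod_cast hw
      have : t₀ + ((2 : ℝ) ^ k)⁻¹ = ((w : ℝ) + 1) / 2 ^ k := by rw [ht₀]; field_simp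
      rw [this, div_le_one h2k]
      exact hw1
    have hs : ∀ s ∈ Set.Icc (0 : ℝ) 1,
        ∑ r ∈ Finset.range N, th p u d Z k r (t₀ + s * (2 ^ k)⁻¹) ≤
        (qq p u d Z k N (t₀ + s * (2 ^ k)⁻¹)) + (Iw p u d Z k N t₀ + N * cc m) := by
      intro s hs
      have hin : InW k t₀ (t₀ + s * (2 ^ k)⁻¹) := by
        have h1 : 0 ≤ s * ((2 : ℝ) ^ k)⁻¹ := mul_nonneg hs.1 hinv0.le
        have h2 : s * ((2 : ℝ) ^ k)⁻¹ ≤ (2 ^ k)⁻¹ := by nlinarith [hs.2]
        exact ⟨ht0, by linarith, by linarith, by linarith⟩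
      have h1 : ∑ r ∈ Finset.range N, th p u d Z k r (t₀ + s * (2 ^ k)⁻¹) ≤
          ∑ r ∈ Finset.range N, (TT p u d Z k r t₀ (t₀ + s * (2 ^ k)⁻¹) +
            II p u d Z k r (t₀ + s * (2 ^ k)⁻¹) + 4 * cc m) :=
        Finset.sum_le_sum fun r _ => hD43 m Ω ζ p u d Z hp k r t₀ _ hin
      have h2 := hSUT m Ω ζ p u d Z hp k N t₀ (t₀ + s * (2 ^ k)⁻¹)
      have h3 : ∑ r ∈ Finset.range N, (TT p u d Z k r t₀ (t₀ + s * (2 ^ k)⁻¹) +
            II p u d Z k r (t₀ + s * (2 ^ k)⁻¹) + 4 * cc m) =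
          ∑ r ∈ Finset.range N, TT p u d Z k r t₀ (t₀ + s * (2 ^ k)⁻¹) +
            qq p u d Z k N (t₀ + s * (2 ^ k)⁻¹) + N * cc m := by
        have h4 : (N : ℝ) * cc m = ∑ r ∈ Finset.range N, cc m := by
          rw [Finset.sum_const, Finset.card_range, nsmul_eq_mul]
        unfold qq
        rw [h4, ← Finset.sum_add_distrib, ← Finset.sum_add_distrib]
        exact Finset.sum_congr rfl fun r _ => by ring
      rw [h3] at h1
      linarith
    have hqi := THS.int_qq hINT hp u d Z k N t₀ ((2 ^ k)⁻¹) 0 1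
    have hint := intervalIntegral.integral_mono_on (by norm_num : (0 : ℝ) ≤ 1)
      (THS.int_ths hINT hIN2 hp u d Z k N t₀ ((2 ^ k)⁻¹) 0 1)
      (hqi.add intervalIntegrable_const) hs
    rw [intervalIntegral.integral_add hqi intervalIntegrable_const,
      intervalIntegral.integral_const] at hint
    simp only [sub_zero, one_smul] at hint
    have := mul_le_mul_of_nonneg_left hint hinv0.le
    linarith
  refine (Finset.sum_le_sum key).trans (le_of_eq ?_)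
  rw [Finset.sum_add_distrib, Finset.sum_add_distrib, ← Finset.mul_sum, Finset.sum_const,
    Finset.card_range, nsmul_eq_mul]
  have : ((2 ^ k : ℕ) : ℝ) * ((2 ^ k)⁻¹ * (N * cc m)) = N * cc m := by
    push_cast
    rw [← mul_assoc, mul_inv_cancel₀ h2k.ne', one_mul]
  rw [this]

end Pool.STK
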