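import Pool.Agent.H90.STK.Stmts

/-!
# Refining the resolution
-/

set_option autoImplicit false

namespace Pool.STK

open Finset Real MeasureTheory
open Pool.Agent.H49.Ent Pool.Agent.H32.Dense

theorem rfn_thm : RFNStmt := by
  intro m Ω ζ _ p x Z hp k j
  have hB : (1 : ℝ) ≤ 2 ^ k := one_le_pow₀ (by norm_num)
  have h1 := CH_le_add hp.nonneg (Fl x (j + k)) (Fl x j) Z
  have h3 := CH_le_vec hp.nonneg hp.sum_one (Fl x (j + k)) (fun ω => (Fl x j ω, Z ω))
    (fun _ => 2 ^ k + 1)
    (by
      intro ω ω' _ _ h i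
      simp only [Prod.mk.injEq] at h
      have a1 := congrFun h.1 i
      unfold Fl fl rd at a1
      unfold Fl fl rd
      simp only
      rw [pow_add]
      obtain ⟨A, hA⟩ : ∃ A : ℝ, A = 2 ^ j := ⟨_, rfl⟩
      obtain ⟨B, hB'⟩ : ∃ B : ℝ, B = 2 ^ k := ⟨_, rfl⟩
      rw [← hA] at a1
      rw [← hA, ← hB']
      rw [← hB'] at hB
      have b1 := Int.floor_le (A * x ω i)
      have b2 := Int.lt_floor_add_one (A * x ω i)
      have b3 := Int.floor_le (A * x ω' i)
      have b4 := Int.lt_floor_add_one (A * x ω' i)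
      rw [a1] at b1 b2
      have c1 := Int.floor_le (A * B * x ω i)
      have c2 := Int.lt_floor_add_one (A * B * x ω i)
      have c3 := Int.floor_le (A * B * x ω' i)
      have c4 := Int.lt_floor_add_one (A * B * x ω' i)
      have e1 : A * B * x ω i - A * B * x ω' i = B * (A * x ω i - A * x ω' i) := by ring
      have d1 : B * (A * x ω i - A * x ω' i) ≤ B * 1 :=
        mul_le_mul_of_nonneg_left (by linarith) (by linarith)
      have d2 : B * (-1) ≤ B * (A * x ω i - A * x ω' i) :=
        mul_le_mul_of_nonneg_left (by linarith) (by linarith)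
      push_cast
      rw [abs_le]
      constructor <;> linarith)
  rw [Ex_const hp.sum_one] at h3
  have h4 : (m : ℝ) * Real.log (2 * (2 ^ k + 1) + 1) ≤ m * (k * Real.log 2) + cc m := by
    unfold cc
    rw [← mul_add]
    refine mul_le_mul_of_nonneg_left ?_ (Nat.cast_nonneg m)
    rw [← Real.log_pow, ← Real.log_mul (by positivity) (by norm_num)]
    exact Real.log_le_log (by positivity) (by linarith)
  linarith

end Pool.STK
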